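import Pool.Agent.Work.MP_43381c_ag.Final

/-!
# Newton nondegenerate pairs on toric germs of arbitrary dimension

For a positive integer `d` and a DCC set `Γ` in `[0, 1]` there is a number `l` such that every log
canonical Newton nondegenerate pair on a `ℚ`-Gorenstein toric germ of dimension `d` with
coefficients in `Γ` has a prime divisor computing its minimal log discrepancy whose log
discrepancy with respect to the ambient germ is at most `l`.
-/

namespace Pool.Agent.Results.MP_43381c_ag.NewtonNondegenerate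

open Pool.Agent.Work.MP_43381c_ag

universe u

theorem result (d : ℕ) (hd : 0 < d) (Γ : Set ℝ) (hΓ : Γ ⊆ Set.Icc 0 1)
    (hdcc : ¬ ∃ u : ℕ → ℝ, StrictAnti u ∧ ∀ n, u n ∈ Γ) :
    ∃ l : ℝ, 0 < l ∧ ∀ (k K : Type u) [Field k] [IsAlgClosed k] [CharZero k] [Field K]
      [Algebra k K] (P : ToricPair k K d), P.CoefIn Γ → P.IsLC →
      ∃ E : PrimeDivisor k K d, P.Over E ∧ P.a E = P.mld ∧ P.aX E ≤ (l : EReal) :=
  toric_main d hd Γ hΓ hdcc

end Pool.Agent.Results.MP_43381c_ag.NewtonNondegenerate
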